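import Pool.Agent.MP_8e2770_co.H89.Main

namespace Pool.Agent.Results.MP_8e2770_co.LargePrimes

open Pool.Agent.MP_8e2770_co.H89

/-- For each size `n`, the conjecture holds for all sufficiently large primes and all `k`. -/
theorem result : ∀ n : ℕ, ∃ p₀ : ℕ, ∀ (p : ℕ), p.Prime → p₀ ≤ p →
    ∀ (A : Matrix (Fin n) (Fin n) (ZMod p)), IsUnit A.det →
      ∀ (k : ℕ) (X Y : Fin n → Finset (ZMod p)),
        (∀ i, (X i).card = k + 2) → (∀ j, (Y j).card = p - k) →
        ∃ x : Fin n → ZMod p, (∀ i, x i ∈ X i) ∧ ∀ j, Matrix.mulVec A x j ∈ Y j := by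
  intro n
  obtain ⟨p₀, h⟩ := lift_exists n
  refine ⟨max p₀ (n + 1), fun p hp hle A hA k => ?_⟩
  have := Fact.mk hp
  exact choosable_of_liftable A hA (le_of_max_le_right hle) (h p hp (le_of_max_le_left hle) A) k

end Pool.Agent.Results.MP_8e2770_co.LargePrimes
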