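import Pool.Agent.MP_8e2770_co.H89.Main

namespace Pool.Agent.Results.MP_8e2770_co.LiftModSq

open Pool.Agent.MP_8e2770_co.H89

/-- The conjecture holds for all `k` when `n < p` and the matrix lifts modulo `p ^ 2` keeping every
linear dependency among the unit vectors and the rows. -/
theorem result :
    ∀ (p : ℕ), p.Prime → ∀ (n : ℕ), n < p → ∀ (A : Matrix (Fin n) (Fin n) (ZMod p)),
      IsUnit A.det → ∀ (B : Matrix (Fin n) (Fin n) (ZMod (p ^ 2))),
      B.map (ZMod.castHom (dvd_pow_self p two_ne_zero) (ZMod p)) = A →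
      (∀ (S : Set (Fin n ⊕ Fin n)) (e : Fin n ⊕ Fin n),
        (Sum.elim (fun i => Pi.single i 1) (fun j => A j) e : Fin n → ZMod p) ∈
          Submodule.span (ZMod p) (Sum.elim (fun i => Pi.single i 1) (fun j => A j) '' S) →
        (Sum.elim (fun i => Pi.single i 1) (fun j => B j) e : Fin n → ZMod (p ^ 2)) ∈
          Submodule.span (ZMod (p ^ 2)) (Sum.elim (fun i => Pi.single i 1) (fun j => B j) '' S)) →
      ∀ (k : ℕ) (X Y : Fin n → Finset (ZMod p)),
        (∀ i, (X i).card = k + 2) → (∀ j, (Y j).card = p - k) →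
        ∃ x : Fin n → ZMod p, (∀ i, x i ∈ X i) ∧ ∀ j, Matrix.mulVec A x j ∈ Y j := by
  intro p hp n hn A hA B h1 h2 k
  have := Fact.mk hp
  exact choosable_of_liftable A hA hn ⟨B, h1, h2⟩ k

end Pool.Agent.Results.MP_8e2770_co.LiftModSq
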