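import Pool.Agent.MP_8e2770_co.H18.Main

namespace Pool.Agent.Results.MP_8e2770_co.ManyMatrices

/-- Choosability for several invertible matrices over a prime field: lists of size more than
`a j` for the `j`-th matrix suffice when the `a j` add up to at least `2 (p - 1)`. -/
theorem result :
    ∀ (p : ℕ), p.Prime → ∀ (n m : ℕ) (A : Fin m → Matrix (Fin n) (Fin n) (ZMod p)),
      (∀ j, IsUnit (A j).det) → ∀ (a : Fin m → ℕ), 2 * (p - 1) ≤ ∑ j, a j →
      ∀ (X : Fin m → Fin n → Finset (ZMod p)), (∀ j i, a j < (X j i).card) →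
      ∀ b : Fin n → ZMod p, ∃ x : Fin m → Fin n → ZMod p,
        (∀ j i, x j i ∈ X j i) ∧ ∑ j, Matrix.mulVec (A j) (x j) = b := by
  intro p hp n m A hA a ha X hX b
  have := Fact.mk hp
  exact Pool.Agent.MP_8e2770_co.H18.matrices A hA a ha X hX b

end Pool.Agent.Results.MP_8e2770_co.ManyMatrices
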