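import Pool.Agent.MP_8e2770_co.H89.Small

namespace Pool.Agent.Results.MP_8e2770_co.SmallK

open Pool.Agent.MP_8e2770_co.H89

/-- The conjecture holds when `min (k + 1) (p - 1 - k) * (n - 1) ≤ p`. -/
theorem result :
    ∀ (p : ℕ), p.Prime → ∀ (n : ℕ) (A : Matrix (Fin n) (Fin n) (ZMod p)), IsUnit A.det →
      ∀ (k : ℕ), min (k + 1) (p - 1 - k) * (n - 1) ≤ p →
      ∀ (X Y : Fin n → Finset (ZMod p)),
        (∀ i, (X i).card = k + 2) → (∀ j, (Y j).card = p - k) →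
        ∃ x : Fin n → ZMod p, (∀ i, x i ∈ X i) ∧ ∀ j, Matrix.mulVec A x j ∈ Y j := by
  intro p hp n A hA k h
  have := Fact.mk hp
  exact choosable_of_min A hA h

end Pool.Agent.Results.MP_8e2770_co.SmallK
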